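import Pool.Agent.N50.Lift

set_option autoImplicit false

namespace Pool.Agent.Results.MP_c1d873_al.NoDetectingGroup

/-- `G` is a `C^k` detecting group for the `n`-manifold `M` (boundary allowed): for every compact
connected smooth `n`-manifold `N` (boundary allowed), `G` acts faithfully by `C^k` diffeomorphisms
on `N` if and only if `N` is `C^k`-diffeomorphic to `M`. As `ρ` is a homomorphism from a group,
each `ρ g` is a bijection whose inverse `ρ g⁻¹` is also of class `C^k`. -/
def IsDetecting (k : ℕ∞) (n : ℕ) [NeZero n] (M : Type) [TopologicalSpace M]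
    [ChartedSpace (EuclideanHalfSpace n) M] (G : Type*) [Group G] : Prop :=
  ∀ (N : Type) [TopologicalSpace N] [T2Space N] [CompactSpace N] [ConnectedSpace N]
    [ChartedSpace (EuclideanHalfSpace n) N]
    [IsManifold (modelWithCornersEuclideanHalfSpace n) ((⊤ : ℕ∞) : WithTop ℕ∞) N],
    ((∃ ρ : G →* Equiv.Perm N, Function.Injective ρ ∧
        ∀ g : G, ContMDiff (modelWithCornersEuclideanHalfSpace n)
          (modelWithCornersEuclideanHalfSpace n) (k : WithTop ℕ∞) (ρ g)) ↔
      Nonempty (Diffeomorph (modelWithCornersEuclideanHalfSpace n)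
        (modelWithCornersEuclideanHalfSpace n) M N (k : WithTop ℕ∞)))

/-- For every regularity `k ∈ {1, 2, …, ∞}`, the interval `[-1,1]` has no `C^k` detecting group at
all, countable or not. -/
theorem result (k : ℕ∞) (hk : 1 ≤ k) [Fact ((-1 : ℝ) < 1)] (G : Type*) [Group G] :
    ¬ IsDetecting k 1 (Set.Icc (-1 : ℝ) 1) G := by
  intro hG
  obtain ⟨ρ, hi, hρ⟩ := (hG Pool.Agent.N50.Lift.K).2 ⟨Diffeomorph.refl _ _ _⟩
  obtain ⟨ρ', hi', hρ'⟩ := Pool.Agent.N50.Lift.exists_lift hk ρ hi hρ
  obtain ⟨e⟩ := (hG Circle).1 ⟨ρ', hi', hρ'⟩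
  exact Pool.Agent.N50.Lift.not_homeo e.toHomeomorph

end Pool.Agent.Results.MP_c1d873_al.NoDetectingGroup
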